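import Mathlib
import Pool.Agent.Q214.ENT.Comb

/-!
MP_919a9a: the Continuum Hypothesis implies that there is an entangled set of reals which is
homogeneous in its subspace topology (it is even homeomorphic to a topological group).
-/

open Set Filter Topology Cardinal

namespace Pool.Agent.Results.MP_919a9a_lc.HomogeneousEntangled

open Q214.ENT

/-- `E` is `(κ, k)`-entangled. -/
def KEntangled (κ : Cardinal.{0}) (k : ℕ) (E : Set ℝ) : Prop :=
  κ ≤ #E ∧ ∀ F : Set (Fin k → ℝ), #F = κ →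
    (∀ a ∈ F, (∀ i, a i ∈ E) ∧ ∀ i j, i ≠ j → a i ≠ a j) →
    (∀ a ∈ F, ∀ b ∈ F, a ≠ b → ∀ i j, a i ≠ b j) →
    ∀ t : Fin k → Fin 2, ∃ a ∈ F, ∃ b ∈ F, a ≠ b ∧ ∀ i, a i < b i ↔ t i = 0

/-- `E` is entangled, i.e. `ℵ₁`-entangled. -/
def Entangled (E : Set ℝ) : Prop := ∀ k : ℕ, 1 ≤ k → KEntangled ℵ₁ k E

/-- The topological space `X` is homogeneous. -/
def Homogeneous (X : Type) [TopologicalSpace X] : Prop := ∀ x y : X, ∃ h : X ≃ₜ X, h x = y

/-! ### The type relation -/

/-- the type `t` is realized -/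
def Typ {k : ℕ} (L R : Fin k → Finset ℕ) (t : Fin k → Bool) (x x' z : ℕ → C) : Prop :=
  ∀ i, (t i = true → phi (form (L i) (R i) x z) < phi (form (L i) (R i) x' z)) ∧
      (t i = false → phi (form (L i) (R i) x' z) < phi (form (L i) (R i) x z))

theorem isOpen_typ {k : ℕ} (L R : Fin k → Finset ℕ) (t : Fin k → Bool) :
    IsOpen {p : (ℕ → C) × (ℕ → C) × (ℕ → C) | Typ L R t p.1 p.2.1 p.2.2} := by
  have h1 : ∀ i, Continuous (fun p : (ℕ → C) × (ℕ → C) × (ℕ → C) =>
      phi (form (L i) (R i) p.1 p.2.2)) := fun i =>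
    continuous_phi.comp ((continuous_form _ _).comp
      (continuous_fst.prodMk (continuous_snd.comp continuous_snd)))
  have h2 : ∀ i, Continuous (fun p : (ℕ → C) × (ℕ → C) × (ℕ → C) =>
      phi (form (L i) (R i) p.2.1 p.2.2)) := fun i =>
    continuous_phi.comp ((continuous_form _ _).comp
      ((continuous_fst.comp continuous_snd).prodMk (continuous_snd.comp continuous_snd)))
  have h3 : {p : (ℕ → C) × (ℕ → C) × (ℕ → C) | Typ L R t p.1 p.2.1 p.2.2} =
      ⋂ i, {p | (t i = true → phi (form (L i) (R i) p.1 p.2.2) <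
        phi (form (L i) (R i) p.2.1 p.2.2)) ∧
      (t i = false → phi (form (L i) (R i) p.2.1 p.2.2) < phi (form (L i) (R i) p.1 p.2.2))} := by
    ext p
    simp only [Typ, mem_ofPred_eq, mem_iInter]
  rw [h3]
  refine isOpen_iInter_of_finite fun i => ?_
  rcases hti : t i with _ | _
  · simpa using isOpen_lt (h2 i) (h1 i)
  · simpa using isOpen_lt (h1 i) (h2 i)

theorem typ_nhds {k : ℕ} {L R : Fin k → Finset ℕ} {t : Fin k → Bool} {x x' z : ℕ → C}
    (h : Typ L R t x x' z) : ∃ U V : Set (ℕ → C), IsOpen U ∧ IsOpen V ∧ x ∈ U ∧ x' ∈ V ∧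
      ∀ a ∈ U, ∀ b ∈ V, Typ L R t a b z := by
  have hopen : IsOpen {p : (ℕ → C) × (ℕ → C) | Typ L R t p.1 p.2 z} :=
    (isOpen_typ L R t).preimage
      (by fun_prop : Continuous fun p : (ℕ → C) × (ℕ → C) => (p.1, p.2, z))
  have h1 : (x, x') ∈ {p : (ℕ → C) × (ℕ → C) | Typ L R t p.1 p.2 z} := h
  obtain ⟨U, V, hU, hV, hxU, hxV, hUV⟩ := isOpen_prod_iff.1 hopen x x' h1
  refine ⟨U, V, hU, hV, hxU, hxV, fun a ha b hb => ?_⟩
  exact hUV (mk_mem_prod ha hb)

/-- the set of parameters for which the type is realized in `B` -/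
def W {k : ℕ} (L R : Fin k → Finset ℕ) (t : Fin k → Bool) (B : Set (ℕ → C)) : Set (ℕ → C) :=
  {z | ∃ x ∈ B, ∃ x' ∈ B, Typ L R t x x' z}

theorem exists_of_mem_W {k : ℕ} {L R : Fin k → Finset ℕ} {t : Fin k → Bool} {B : Set (ℕ → C)}
    {z : ℕ → C} (h : z ∈ W L R t B) : ∃ x ∈ B, ∃ x' ∈ B, Typ L R t x x' z := h

theorem isOpen_W {k : ℕ} (L R : Fin k → Finset ℕ) (t : Fin k → Bool) (B : Set (ℕ → C)) :
    IsOpen (W L R t B) := by
  have : W L R t B = ⋃ x ∈ B, ⋃ x' ∈ B, {z | Typ L R t x x' z} := by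
    ext z
    simp only [W, mem_ofPred_eq, mem_iUnion, exists_prop]
  rw [this]
  refine isOpen_biUnion fun x _ => isOpen_biUnion fun x' _ => ?_
  exact (isOpen_typ L R t).preimage (by fun_prop : Continuous fun z : ℕ → C => (x, x', z))

/-- validity of the data -/
def Valid {k : ℕ} (L R : Fin k → Finset ℕ) : Prop :=
  (∀ i, (L i).Nonempty) ∧ ∀ i i', i ≠ i' → L i = L i' → R i ≠ R i'

theorem dense_W {k : ℕ} {L R : Fin k → Finset ℕ} (h : Valid L R) (t : Fin k → Bool)
    {B : Set (ℕ → C)} (hB : IsOpen B) (hBn : B.Nonempty) : Dense (W L R t B) := by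
  rw [dense_iff_inter_open]
  intro D hD hDn
  obtain ⟨x, hx, x', hx', z, hz, hxz⟩ := generic L R h.1 h.2 hB hBn hD hDn t
  exact ⟨z, hz, x, hx, x', hx', hxz⟩

/-- the index set of the basic requirements -/
abbrev Data : Type :=
  Σ k : ℕ, (Fin k → Finset ℕ) × (Fin k → Finset ℕ) × (Fin k → Bool) ×
    (TopologicalSpace.countableBasis (ℕ → C))

/-- the basic meagre set -/
def M0 : Set (ℕ → C) :=
  (⋃ q : Data, {z | Valid q.2.1 q.2.2.1 ∧ z ∉ W q.2.1 q.2.2.1 q.2.2.2.1 q.2.2.2.2.1}) ∪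
    {z | z 0 = z 1}

theorem meagre_M0 : IsMeagre M0 := by
  have : Countable (TopologicalSpace.countableBasis (ℕ → C)) :=
    (TopologicalSpace.countable_countableBasis _).to_subtype
  refine IsMeagre.union (isMeagre_iUnion fun q => ?_) ?_
  · by_cases hq : Valid q.2.1 q.2.2.1
    · have hB := q.2.2.2.2.2
      have h1 := dense_W hq q.2.2.2.1 (TopologicalSpace.isOpen_of_mem_countableBasis hB)
        (TopologicalSpace.nonempty_of_mem_countableBasis hB)
      have h2 := isOpen_W q.2.1 q.2.2.1 q.2.2.2.1 q.2.2.2.2.1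
      refine IsMeagre.mono (s := (W q.2.1 q.2.2.1 q.2.2.2.1 q.2.2.2.2.1)ᶜ) (fun z hz => hz.2) ?_
      have h3 := residual_of_dense_open h2 h1
      rw [IsMeagre, compl_compl]
      exact h3
    · have : {z | Valid q.2.1 q.2.2.1 ∧ z ∉ W q.2.1 q.2.2.1 q.2.2.2.1 q.2.2.2.2.1} = ∅ := by
        rw [eq_empty_iff_forall_notMem]
        exact fun z hz => hq hz.1
      rw [this]
      exact IsMeagre.empty
  · have hcl : IsClosed {z : ℕ → C | z 0 = z 1} :=
      isClosed_eq (continuous_apply 0) (continuous_apply 1)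
    have hd : Dense {z : ℕ → C | z 0 = z 1}ᶜ := by
      rw [dense_iff_inter_open]
      intro D hD hDn
      obtain ⟨z0, hz0⟩ := hDn
      obtain ⟨n0, hn0⟩ := exists_digits hD hz0
      refine ⟨fun j d => if d < n0 then z0 j d else if j = 0 then 1 else 0, ?_, ?_⟩
      · apply hn0
        intro j d hd
        rw [if_pos hd]
      · intro h
        have h1 := congrFun h n0
        simp at h1
    have h3 := residual_of_dense_open hcl.isOpen_compl hd
    rw [IsMeagre]
    exact h3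

theorem exists_notMem_of_meagre {M : Set (ℕ → C)} (hM : IsMeagre M) : ∃ y, y ∉ M := by
  obtain ⟨y, hy⟩ := (dense_of_mem_residual hM).nonempty
  exact ⟨y, hy⟩

/-! ### Closed sets -/

theorem exists_closed_enum : ∃ K : Set ℕ → Set (ℕ → C), (∀ g, IsClosed (K g)) ∧
    ∀ A, IsClosed A → ∃ g, K g = A := by
  have hne : (TopologicalSpace.countableBasis (ℕ → C)).Nonempty := by
    obtain ⟨v, hv, -⟩ := (TopologicalSpace.isBasis_countableBasis (ℕ → C)).exists_subset_of_mem_open
      (mem_univ (0 : ℕ → C)) isOpen_univ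
    exact ⟨v, hv⟩
  obtain ⟨b, hb⟩ := (TopologicalSpace.countable_countableBasis (ℕ → C)).exists_eq_range hne
  have hbo : ∀ n, IsOpen (b n) := fun n =>
    TopologicalSpace.isOpen_of_mem_countableBasis (hb ▸ mem_range_self n)
  refine ⟨fun g => (⋃ n ∈ g, b n)ᶜ, fun g => (isOpen_biUnion fun n _ => hbo n).isClosed_compl, ?_⟩
  intro A hA
  refine ⟨{n | b n ⊆ Aᶜ}, ?_⟩
  have h1 : (⋃ n ∈ {n | b n ⊆ Aᶜ}, b n) = Aᶜ := by
    apply Subset.antisymm
    · exact iUnion₂_subset fun n hn => hn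
    · intro x hx
      obtain ⟨v, hv, hxv, hvA⟩ := (TopologicalSpace.isBasis_countableBasis (ℕ → C)).exists_subset_of_mem_open
        hx hA.isOpen_compl
      rw [hb] at hv
      obtain ⟨n, rfl⟩ := hv
      exact mem_iUnion₂.2 ⟨n, hvA, hxv⟩
  simp only [h1, compl_compl]

/-! ### The main construction -/

theorem core {I : Type} [LinearOrder I] [WellFoundedLT I] [Nonempty I] (hI : #I = ℵ₁)
    (hIio : ∀ i : I, (Iio i).Countable) (eqv : I ≃ Set ℕ) :
    ∃ H : Submodule (ZMod 2) C, Entangled (phi '' (H : Set C)) := by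
  classical
  have hIic : ∀ i : I, (Iic i).Countable := by
    intro i
    rw [← Iio_insert]
    exact (hIio i).insert i
  -- enumeration of the closed sets
  obtain ⟨K, hKc, hK⟩ := exists_closed_enum
  let M : Option I → Set (ℕ → C) := fun j => match j with
    | none => M0
    | some i => frontier (K (eqv i))
  have hM : ∀ j, IsMeagre (M j) := by
    intro j
    cases j with
    | none => exact meagre_M0
    | some i =>
      refine IsNowhereDense.isMeagre ?_
      change IsNowhereDense (frontier (K (eqv i)))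
      rw [(isClosed_frontier).isNowhereDense_iff]
      exact interior_frontier (hKc _)
  obtain ⟨e, he⟩ := exists_seq hIio M hM
  have heinj : Function.Injective e := by
    have hlt : ∀ i j, i < j → e i ≠ e j := by
      intro i j hij h
      have h1 := he none [i, j] (by simp [hij]) (by simp)
      obtain ⟨y, hy⟩ := exists_notMem_of_meagre h1
      exact hy (Or.inr h)
    intro i j h
    rcases lt_trichotomy i j with h1 | h1 | h1
    · exact absurd h (hlt i j h1)
    · exact h1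
    · exact absurd h.symm (hlt j i h1)
  refine ⟨Submodule.span (ZMod 2) (range e), ?_⟩
  set H := Submodule.span (ZMod 2) (range e) with hH
  intro k hk
  refine ⟨?_, ?_⟩
  · rw [← hI]
    refine mk_le_of_injective (f := fun i : I =>
      (⟨phi (e i), e i, Submodule.subset_span (mem_range_self i), rfl⟩ : phi '' (H : Set C))) ?_
    intro i j h
    exact heinj (phi_injective (congrArg Subtype.val h))
  intro F hFcard hFE hFdisj t
  have hFnc : ¬ F.Countable := by
    intro h
    have h1 := le_aleph0_iff_set_countable.2 h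
    rw [hFcard] at h1
    exact absurd h1 (not_le.2 aleph0_lt_aleph_one)
  -- supports
  have hsup : ∀ (ν : Fin k → ℝ) (i : Fin k), ∃ s : Finset I, ν ∈ F → phi (∑ ξ ∈ s, e ξ) = ν i := by
    intro ν i
    by_cases hν : ν ∈ F
    · obtain ⟨a, ha, hai⟩ := (hFE ν hν).1 i
      obtain ⟨s, hs⟩ := exists_support e ha
      exact ⟨s, fun _ => by rw [hs, hai]⟩
    · exact ⟨∅, fun h => absurd h hν⟩
  choose s hs using hsup
  let S : (Fin k → ℝ) → Finset I := fun ν => Finset.univ.biUnion (s ν)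
  have hsS : ∀ ν i, s ν i ⊆ S ν := fun ν i => Finset.subset_biUnion_of_mem (s ν) (Finset.mem_univ i)
  obtain ⟨R, F', hF'F, hF'nc, hRS, hroot⟩ := exists_root' S F hFnc
  let sh : (Fin k → ℝ) → (Fin k → Finset ℕ) × (Fin k → Finset ℕ) := fun ν =>
    (fun i => pos ((S ν \ R).sort (· ≤ ·)) (s ν i), fun i => pos (R.sort (· ≤ ·)) (s ν i))
  obtain ⟨σ, hσ⟩ := exists_shape S sh R F' hF'nc hIic hroot
  obtain ⟨L, Rr⟩ := σ
  let u : (Fin k → ℝ) → List C := fun ν => ((S ν \ R).sort (· ≤ ·)).map e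
  let ρ : List C := (R.sort (· ≤ ·)).map e
  have hform : ∀ ν ∈ F', sh ν = (L, Rr) → ∀ i y y',
      phi (form (L i) (Rr i) (app (u ν) y) (app ρ y')) = ν i := by
    intro ν hν hsh i y y'
    have h1 : L i = pos ((S ν \ R).sort (· ≤ ·)) (s ν i) := by
      have := congrArg Prod.fst hsh
      exact (congrFun this i).symm
    have h2 : Rr i = pos (R.sort (· ≤ ·)) (s ν i) := by
      have := congrArg Prod.snd hsh
      exact (congrFun this i).symm
    rw [h1, h2, form_pos (hsS ν i)]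
    exact hs ν i (hF'F hν)
  have hunc : ∀ η : I, ∃ ν ∈ F', sh ν = (L, Rr) ∧ ∀ ξ ∈ S ν \ R, η < ξ := by
    intro η
    by_contra hcon
    push Not at hcon
    apply hσ η
    have : {ν | ν ∈ F' ∧ sh ν = (L, Rr) ∧ ∀ ξ ∈ S ν \ R, η < ξ} = ∅ := by
      rw [eq_empty_iff_forall_notMem]
      rintro ν ⟨h1, h2, h3⟩
      obtain ⟨ξ, hξ, hle⟩ := hcon ν h1 h2
      exact absurd (h3 ξ hξ) (not_lt.2 hle)
    rw [this]
    exact countable_empty
  -- validity
  have hvalid : Valid L Rr := by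
    constructor
    · intro i
      by_contra hcon
      rw [Finset.not_nonempty_iff_eq_empty] at hcon
      have h1 := hσ (Classical.arbitrary I)
      have h2 : ¬ {ν | ν ∈ F' ∧ sh ν = (L, Rr) ∧
          ∀ ξ ∈ S ν \ R, Classical.arbitrary I < ξ}.Subsingleton := fun h => h1 h.countable
      rw [not_subsingleton_iff] at h2
      obtain ⟨ν, hν, ν', hν', hne⟩ := h2
      have h3 := hform ν hν.1 hν.2.1 i 0 0
      have h4 := hform ν' hν'.1 hν'.2.1 i 0 0
      rw [hcon] at h3 h4
      have h5 : ν i = ν' i := by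
        rw [← h3, ← h4]
        simp [form]
      exact hFdisj ν (hF'F hν.1) ν' (hF'F hν'.1) hne i i h5
    · intro i i' hii hL hR
      obtain ⟨ν, hν, hsh, -⟩ := hunc (Classical.arbitrary I)
      have h3 := hform ν hν hsh i 0 0
      have h4 := hform ν hν hsh i' 0 0
      rw [hL, hR, h4] at h3
      exact (hFE ν (hF'F hν)).2 i' i hii.symm h3
  -- the parameters
  have hsortlt : ∀ A : Finset I, (A.sort (· ≤ ·)).Pairwise (· < ·) := fun A =>
    (Finset.sortedLT_sort A).pairwise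
  obtain ⟨y0, hy0⟩ := exists_notMem_of_meagre
    (he none (R.sort (· ≤ ·)) (hsortlt R) (by intro k hk; exact absurd hk (by simp)))
  have hz0 : app ρ y0 ∉ M0 := hy0
  -- the closure of the family of cylinders
  let cyl : Set (ℕ → C) := {x | ∃ ν ∈ F', sh ν = (L, Rr) ∧ ∃ y, x = app (u ν) y}
  obtain ⟨g, hg⟩ := hK (closure cyl) isClosed_closure
  obtain ⟨ν, hν, hsh, hgt⟩ := hunc (eqv.symm g)
  have hmg := he (some (eqv.symm g)) ((S ν \ R).sort (· ≤ ·)) (hsortlt _) (by
    intro k hk i hi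
    rw [Option.mem_def, Option.some.injEq] at hk
    rw [← hk]
    exact hgt i ((Finset.mem_sort _).1 hi))
  obtain ⟨y1, hy1⟩ := exists_notMem_of_meagre hmg
  have hy1' : app (u ν) y1 ∉ frontier (closure cyl) := by
    intro h
    apply hy1
    change app (u ν) y1 ∈ frontier (K (eqv (eqv.symm g)))
    rw [Equiv.apply_symm_apply, hg]
    exact h
  have hmem : app (u ν) y1 ∈ closure cyl := subset_closure ⟨ν, hν, hsh, y1, rfl⟩
  have hint : app (u ν) y1 ∈ interior (closure cyl) := by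
    by_contra h
    apply hy1'
    rw [isClosed_closure.frontier_eq]
    exact ⟨hmem, h⟩
  obtain ⟨B, hB, hyB, hBsub⟩ := (TopologicalSpace.isBasis_countableBasis (ℕ → C)).exists_subset_of_mem_open
    hint isOpen_interior
  let t' : Fin k → Bool := fun i => decide (t i = 0)
  have hW : app ρ y0 ∈ W L Rr t' B := by
    by_contra hcon
    apply hz0
    exact Or.inl (mem_iUnion.2 ⟨⟨k, L, Rr, t', ⟨B, hB⟩⟩, hvalid, hcon⟩)
  obtain ⟨x, hx, x', hx', htyp⟩ := exists_of_mem_W hW
  -- pass to members of the family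
  obtain ⟨U, V, hU, hV, hxU, hxV, hUV⟩ := typ_nhds htyp
  have hxc : x ∈ closure cyl := interior_subset (hBsub hx)
  have hxc' : x' ∈ closure cyl := interior_subset (hBsub hx')
  obtain ⟨w, hwU, hw⟩ := mem_closure_iff.1 hxc U hU hxU
  obtain ⟨w', hwV, hw'⟩ := mem_closure_iff.1 hxc' V hV hxV
  obtain ⟨ν1, hν1, hsh1, yy1, hw1⟩ := hw
  obtain ⟨ν2, hν2, hsh2, yy2, hw2⟩ := hw'
  have hT : Typ L Rr t' w w' (app ρ y0) := hUV w hwU w' hwV
  have hfin : ∀ i, (t i = 0 → ν1 i < ν2 i) ∧ (t i ≠ 0 → ν2 i < ν1 i) := by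
    intro i
    have h1 := hT i
    rw [hw1, hw2] at h1
    rw [hform ν1 hν1 hsh1 i, hform ν2 hν2 hsh2 i] at h1
    constructor
    · intro h
      exact h1.1 (by simp [t', h])
    · intro h
      exact h1.2 (by simp [t', h])
  refine ⟨ν1, hF'F hν1, ν2, hF'F hν2, ?_, ?_⟩
  · intro h
    have h1 := hfin ⟨0, hk⟩
    rw [h] at h1
    by_cases h0 : t ⟨0, hk⟩ = 0
    · exact lt_irrefl _ (h1.1 h0)
    · exact lt_irrefl _ (h1.2 h0)
  · intro i
    constructor
    · intro h
      by_contra h0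
      exact lt_asymm h ((hfin i).2 h0)
    · exact (hfin i).1

theorem main (CH : (𝔠 : Cardinal.{0}) = ℵ₁) :
    ∃ H : Submodule (ZMod 2) C, Entangled (phi '' (H : Set C)) := by
  have hI : #((ℵ₁ : Cardinal.{0}).ord.ToType) = ℵ₁ := mk_ord_toType ℵ₁
  have hIio : ∀ i : (ℵ₁ : Cardinal.{0}).ord.ToType, (Iio i).Countable := by
    intro i
    have h1 := mk_Iio_lt i (by simp)
    rw [hI] at h1
    have h2 : #(Iio i) < Order.succ ℵ₀ := by
      rw [Cardinal.succ_aleph0]
      exact h1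
    rw [Order.lt_succ_iff] at h2
    exact le_aleph0_iff_set_countable.1 h2
  have hne : Nonempty (ℵ₁ : Cardinal.{0}).ord.ToType := by
    rw [← mk_ne_zero_iff, hI]
    exact (aleph_pos 1).ne'
  have hcard : #((ℵ₁ : Cardinal.{0}).ord.ToType) = #(Set ℕ) := by
    rw [hI, ← CH]
    simp
  obtain ⟨eqv⟩ := Cardinal.eq.1 hcard
  exact core hI hIio eqv

/-- **Theorem.** Assume the Continuum Hypothesis.  There is an entangled set `E` of reals which,
with its subspace topology, is a homogeneous space.  Moreover `E` is homeomorphic to a subgroup of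
the Cantor group `(ℤ/2)^ℕ`. -/
theorem result (CH : (𝔠 : Cardinal.{0}) = ℵ₁) :
    ∃ E : Set ℝ, Entangled E ∧ Homogeneous E ∧
      ∃ H : AddSubgroup (ℕ → ZMod 2), Nonempty (E ≃ₜ H) := by
  obtain ⟨H, hH⟩ := main CH
  have h1 : (H : Set C) ≃ₜ (phi '' (H : Set C)) := isEmbedding_phi.homeomorphImage _
  refine ⟨phi '' (H : Set C), hH, ?_, H.toAddSubgroup, ⟨h1.symm⟩⟩
  intro x y
  let x' : H.toAddSubgroup := h1.symm x
  let y' : H.toAddSubgroup := h1.symm y
  let T : H.toAddSubgroup ≃ₜ H.toAddSubgroup := Homeomorph.addLeft (y' - x')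
  refine ⟨(h1.symm.trans T).trans h1, ?_⟩
  have h2 : T x' = y' := by
    change y' - x' + x' = y'
    abel
  change h1 (T x') = y
  rw [h2]
  exact h1.apply_symm_apply y

end Pool.Agent.Results.MP_919a9a_lc.HomogeneousEntangled
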